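import Pool.Agent.H454.PF.Stm3
import Pool.Graph.R_pool_sql_team_seeded_63374d34.N963.GN.W

set_option autoImplicit false

/-!
# PF-GA0: Gaussian averages on a shifted line
-/

namespace Pool.Agent.H122.PF

open Complex Filter Topology MeasureTheory Polynomial Metric
open scoped ComplexConjugate
open Pool.Agent.N963.GN
open Pool.Agent.H454.PF

lemma gauss_re {s : ℝ} (hs : 0 < s) : (-(1 / (4 * (s : ℂ)))).re < 0 := by
  have e : (-(1 / (4 * (s : ℂ)))) = ((-(1 / (4 * s)) : ℝ) : ℂ) := by push_cast; ring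
  rw [e, Complex.ofReal_re, neg_lt_zero]
  positivity

lemma gauss_eq {s : ℝ} (hs : 0 < s) (q : ℂ) (x : ℝ) : cexp (-(x - q) ^ 2 / (4 * s)) =
    cexp (-(1 / (4 * (s : ℂ))) * x ^ 2 + q / (2 * s) * x + -(q ^ 2 / (4 * s))) := by
  have h : (s : ℂ) ≠ 0 := by exact_mod_cast hs.ne'
  congr 1
  field_simp
  ring

lemma gauss_int {s : ℝ} (hs : 0 < s) (q : ℂ) : Integrable (fun x : ℝ => cexp (-(x - q) ^ 2 / (4 * s))) := by
  refine (integrable_cexp_quadratic' (gauss_re hs) (q / (2 * s)) (-(q ^ 2 / (4 * s)))).congr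
    (Eventually.of_forall fun x => ?_)
  exact (gauss_eq hs q x).symm

lemma gauss_val {s : ℝ} (hs : 0 < s) (H : ℝ) (z : ℂ) (u : ℝ) :
    ∫ x : ℝ, cexp (I * (x - I * H) * u) * cexp (-(x - (z + I * H)) ^ 2 / (4 * s)) =
      ((Real.sqrt (4 * Real.pi * s) : ℝ) : ℂ) * (((Real.exp (-(s * u ^ 2)) : ℝ) : ℂ) * cexp (I * z * u)) := by
  have h : (s : ℂ) ≠ 0 := by exact_mod_cast hs.ne'
  have h1 := integral_cexp_quadratic (gauss_re hs) ((z + I * H) / (2 * s) + I * u)
    (-((z + I * H) ^ 2 / (4 * s)) + H * u)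
  have h2 : ∀ x : ℝ, cexp (I * (x - I * H) * u) * cexp (-(x - (z + I * H)) ^ 2 / (4 * s)) =
      cexp (-(1 / (4 * (s : ℂ))) * x ^ 2 + ((z + I * H) / (2 * s) + I * u) * x +
        (-((z + I * H) ^ 2 / (4 * s)) + H * u)) := by
    intro x
    rw [gauss_eq hs, ← Complex.exp_add]
    congr 1
    have : I * (x - I * H) * u = I * u * x + H * u := by
      have h3 : I * I = -1 := I_mul_I
      linear_combination (-(H : ℂ) * u) * h3
    rw [this]
    ring
  simp_rw [h2]
  rw [h1]
  congr 1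
  · have e1 : (Real.pi : ℂ) / -(-(1 / (4 * (s : ℂ)))) = ((4 * Real.pi * s : ℝ) : ℂ) := by
      push_cast
      field_simp
    rw [e1, Real.sqrt_eq_rpow, Complex.ofReal_cpow (by positivity)]
    push_cast
    rfl
  · rw [Complex.ofReal_exp, ← Complex.exp_add]
    congr 1
    have h3 : I * I = -1 := I_mul_I
    push_cast
    field_simp
    linear_combination (16 * (s : ℂ) * (u : ℂ) ^ 2 * s + 16 * (H : ℂ) * u * s) * h3

theorem t_GA0 : S_GA0 := by
  intro k hk s hs H z
  have hG := gauss_int hs (z + I * H)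
  have hnorm : ∀ (u x : ℝ), ‖cexp (I * (x - I * H) * u)‖ ≤ Real.exp (|H| * |u|) := by
    intro u x
    rw [Complex.norm_exp, Real.exp_le_exp]
    have h1 : (I * (x - I * H) * u).re = H * u := by simp
    rw [h1, ← abs_mul]
    exact le_abs_self _
  -- joint integrability
  have hint : Integrable (fun p : ℝ × ℝ => k p.2 * cexp (I * (p.1 - I * H) * p.2) *
      cexp (-(p.1 - (z + I * H)) ^ 2 / (4 * s))) (volume.prod volume) := by
    have h1 : Integrable (fun p : ℝ × ℝ => ‖cexp (-(p.1 - (z + I * H)) ^ 2 / (4 * s))‖ *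
        (‖k p.2‖ * Real.exp (|H| * |p.2|))) (volume.prod volume) :=
      hG.norm.mul_prod (hk.norm_int |H|)
    refine h1.mono' ?_ (Eventually.of_forall fun p => ?_)
    · refine (hk.aesm.comp_snd.mul ?_).mul ?_
      · exact Continuous.aestronglyMeasurable (by fun_prop)
      · exact Continuous.aestronglyMeasurable (by fun_prop)
    · rw [norm_mul, norm_mul, mul_comm]
      gcongr
      exact hnorm _ _
  have hswap := integral_integral_swap (f := fun (x u : ℝ) => k u * cexp (I * (x - I * H) * u) *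
      cexp (-(x - (z + I * H)) ^ 2 / (4 * s))) hint
  have hL : ∀ x : ℝ, ∫ u : ℝ, k u * cexp (I * (x - I * H) * u) * cexp (-(x - (z + I * H)) ^ 2 / (4 * s)) =
      Lt k (x - I * H) * cexp (-(x - (z + I * H)) ^ 2 / (4 * s)) := by
    intro x
    rw [integral_mul_const]
    rfl
  refine ⟨?_, ?_⟩
  · have h1 := hint.integral_prod_left
    refine h1.congr (Eventually.of_forall fun x => ?_)
    exact hL x
  · simp_rw [hL] at hswap
    rw [hswap]
    have hR : ∀ u : ℝ, ∫ x : ℝ, k u * cexp (I * (x - I * H) * u) * cexp (-(x - (z + I * H)) ^ 2 / (4 * s)) =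
        ((Real.sqrt (4 * Real.pi * s) : ℝ) : ℂ) * (gw k s u * cexp (I * z * u)) := by
      intro u
      simp_rw [mul_assoc (k u)]
      rw [integral_const_mul, gauss_val hs]
      unfold gw
      ring
    simp_rw [hR]
    rw [integral_const_mul, ← mul_assoc]
    have h5 : ((1 / Real.sqrt (4 * Real.pi * s) : ℝ) : ℂ) * ((Real.sqrt (4 * Real.pi * s) : ℝ) : ℂ) = 1 := by
      rw [← Complex.ofReal_mul, one_div, inv_mul_cancel₀ (by positivity), Complex.ofReal_one]
    rw [h5, one_mul]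
    rfl

end Pool.Agent.H122.PF
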