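import Pool.Agent.H454.PF.Stm3
import Pool.Graph.R_pool_sql_team_seeded_63374d34.N963.GN.W

set_option autoImplicit false

/-!
# PF-GA5: infinitely many non-real zeros from the asymptotic formula
-/

namespace Pool.Agent.H122.PF

open Complex Filter Topology MeasureTheory Polynomial Metric
open scoped ComplexConjugate
open Pool.Agent.N963.GN
open Pool.Agent.H454.PF

lemma wt_gw {k : ℝ → ℂ} (hk : Wt k) {s : ℝ} (hs : 0 < s) : Wt (gw k s) := by
  unfold gw
  refine hk.mul_of_bound (by fun_prop) (C := 1) (A := 0) fun u => ?_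
  rw [Complex.norm_real, Real.norm_eq_abs, Real.abs_exp, zero_mul, Real.exp_zero, one_mul]
  refine Real.exp_le_one_iff.2 ?_
  have : 0 ≤ s * u ^ 2 := by positivity
  linarith

/-- a circle around an isolated zero -/
lemma circle {D : ℂ → ℂ} (hD : Differentiable ℂ D) {w v0 : ℂ} (hw : D w ≠ 0) :
    ∃ r m : ℝ, 0 < r ∧ r < 1 ∧ 0 < m ∧ ∀ v : ℂ, ‖v - v0‖ = r → m ≤ ‖D v‖ := by
  have h1 : ∀ᶠ z in 𝓝[≠] v0, D z ≠ 0 := by
    rcases (hD.analyticAt v0).eventually_eq_zero_or_eventually_ne_zero with h | h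
    · exfalso
      have han : AnalyticOnNhd ℂ D Set.univ := fun z _ => hD.analyticAt z
      exact hw (han.eqOn_zero_of_preconnected_of_eventuallyEq_zero isPreconnected_univ
        (Set.mem_univ v0) h (Set.mem_univ w))
    · exact h
  rw [eventually_nhdsWithin_iff, Metric.eventually_nhds_iff] at h1
  obtain ⟨r0, hr0, h1⟩ := h1
  obtain ⟨r, hr⟩ : ∃ r, r = min (r0 / 2) (1 / 2) := ⟨_, rfl⟩
  have hr1 : 0 < r := by rw [hr]; positivity
  have hr2 : r < r0 := by rw [hr]; exact (min_le_left _ _).trans_lt (by linarith)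
  have hr3 : r < 1 := by rw [hr]; exact (min_le_right _ _).trans_lt (by norm_num)
  have hc : IsCompact (sphere v0 r) := isCompact_sphere v0 r
  have hne : (sphere v0 r).Nonempty := NormedSpace.sphere_nonempty.2 hr1.le
  obtain ⟨z, hz, hmin⟩ := hc.exists_isMinOn hne (hD.continuous.norm.continuousOn)
  refine ⟨r, ‖D z‖, hr1, hr3, ?_, fun v hv => ?_⟩
  · rw [norm_pos_iff]
    have hz' : dist z v0 = r := hz
    refine h1 (by rw [hz']; exact hr2) ?_
    intro h
    rw [Set.mem_singleton_iff] at h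
    rw [h, dist_self] at hz'
    linarith
  · exact hmin (by rw [mem_sphere, dist_eq_norm]; exact hv)

/-- a zero in the disc -/
lemma zero_disc {D E : ℂ → ℂ} (hE : Differentiable ℂ E) {v0 : ℂ} {r m : ℝ} (hr : 0 < r) (hm : 0 < m)
    (h0 : D v0 = 0) (hc : ∀ v : ℂ, ‖v - v0‖ = r → m ≤ ‖D v‖)
    (hd : ∀ v : ℂ, ‖v - v0‖ ≤ r → ‖E v - D v‖ ≤ m / 4) : ∃ v : ℂ, ‖v - v0‖ ≤ r ∧ E v = 0 := by
  by_contra hcon
  push Not at hcon
  have h1 : DiffContOnCl ℂ (fun v => (E v)⁻¹) (ball v0 r) := by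
    apply DifferentiableOn.diffContOnCl
    rw [closure_ball v0 hr.ne']
    intro v hv
    refine ((hE v).inv (hcon v ?_)).differentiableWithinAt
    rwa [mem_closedBall, dist_eq_norm] at hv
  have h2 : ∀ z ∈ frontier (ball v0 r), ‖(fun v => (E v)⁻¹) z‖ ≤ (3 * m / 4)⁻¹ := by
    intro z hz
    rw [frontier_ball v0 hr.ne', mem_sphere, dist_eq_norm] at hz
    have h3 := hc z hz
    have h4 := hd z hz.le
    have h5 : ‖D z‖ ≤ ‖E z‖ + ‖E z - D z‖ := by
      have := norm_sub_le (E z) (E z - D z)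
      rwa [sub_sub_cancel] at this
    show ‖(E z)⁻¹‖ ≤ _
    rw [norm_inv]
    exact inv_anti₀ (by positivity) (by linarith)
  have h3 := Complex.norm_le_of_forall_mem_frontier_norm_le isBounded_ball h1 h2
    (subset_closure (mem_ball_self hr))
  have h4 : ‖E v0‖ ≤ m / 4 := by
    have := hd v0 (by rw [sub_self, norm_zero]; exact hr.le)
    rwa [h0, sub_zero] at this
  have h5 : 0 < ‖E v0‖ := norm_pos_iff.2 (hcon v0 (by rw [sub_self, norm_zero]; exact hr.le))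
  have h6 : ‖(E v0)⁻¹‖ ≤ (3 * m / 4)⁻¹ := h3
  rw [norm_inv, inv_le_inv₀ h5 (by positivity)] at h6
  linarith

theorem t_GA5 : S_GA5 := by
  intro h0 h1 h2 h3 h4 k H κ c0 a1 β A x0 C hk hA s hs
  obtain ⟨hD, ⟨w, hw⟩, v0, hv0⟩ := h3 κ s β hA.hκ hs hA.hs hA.h0 hA.h1
  obtain ⟨r, m, hr, hr1, hm, hc⟩ := circle hD (v0 := v0) hw
  have hf : Differentiable ℂ (Lt (gw k s)) := diff_Lt (wt_gw hk hs)
  -- zeros
  have key : ∀ T : ℝ, ∃ τ : ℝ, T ≤ τ ∧ ∃ v : ℂ, ‖v - v0‖ ≤ r ∧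
      Lt (gw k s) (τ + v - I * H - 2 * s * LL c0 a1 τ) = 0 := by
    intro T
    obtain ⟨T1, hT1⟩ := h2 h0 h1 k H κ c0 a1 β A x0 C hk hA s hs (‖v0‖ + 1) (m / 8) (by positivity)
    obtain ⟨τ, hτ, hτ2⟩ := h4 κ s β hA.hκ hs hA.hs (‖v0‖ + 1) (m / 8) (max T T1) (by positivity)
    obtain ⟨hA0, hτ3⟩ := hT1 τ ((le_max_right _ _).trans hτ)
    refine ⟨τ, (le_max_left _ _).trans hτ, ?_⟩
    have hE : Differentiable ℂ (fun v : ℂ => Lt (gw k s) (τ + v - I * H - 2 * s * LL c0 a1 τ) *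
        cexp (-(v * LL c0 a1 τ) + s * LL c0 a1 τ ^ 2) / A τ) := by
      have e1 : Differentiable ℂ (fun v : ℂ => Lt (gw k s) (τ + v - I * H - 2 * s * LL c0 a1 τ)) :=
        hf.comp (by fun_prop)
      have e2 : Differentiable ℂ (fun v : ℂ => cexp (-(v * LL c0 a1 τ) + s * LL c0 a1 τ ^ 2)) := by fun_prop
      exact (e1.mul e2).div_const _
    obtain ⟨v, hv, hv2⟩ := zero_disc hE hr hm hv0 hc (fun v hv => by
      have hvR : ‖v‖ ≤ ‖v0‖ + 1 := by
        have := norm_add_le (v - v0) v0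
        rw [sub_add_cancel] at this
        linarith
      have e1 := hτ3 v hvR
      have e2 := hτ2 v hvR
      have e3 := norm_add_le (Lt (gw k s) (τ + v - I * H - 2 * s * LL c0 a1 τ) *
        cexp (-(v * LL c0 a1 τ) + s * LL c0 a1 τ ^ 2) / A τ - Ds κ s β (τ + v)) (Ds κ s β (τ + v) - Ds κ s β v)
      rw [sub_add_sub_cancel] at e3
      linarith)
    refine ⟨v, hv, ?_⟩
    rcases div_eq_zero_iff.1 hv2 with h | h
    · rcases mul_eq_zero.1 h with h | h
      · exact h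
      · exact absurd h (Complex.exp_ne_zero _)
    · exact absurd h hA0
  -- infinitely many
  intro hfin
  obtain ⟨B, hB⟩ := (hfin.image (fun z : ℂ => |z.im|)).bddAbove
  have hB' : ∀ z ∈ NRZ (Lt (gw k s)), |z.im| ≤ B := fun z hz => hB (Set.mem_image_of_mem _ hz)
  have hc0 := hA.hc
  obtain ⟨τ, hτ, v, hv, hz⟩ := key (Real.exp ((‖v0‖ + 1 + |H| + 2 * s * |a1.im| + |B| + 1) / (2 * s * c0)))
  have hlog : (‖v0‖ + 1 + |H| + 2 * s * |a1.im| + |B| + 1) / (2 * s * c0) ≤ Real.log τ := by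
    rw [← Real.log_exp ((‖v0‖ + 1 + |H| + 2 * s * |a1.im| + |B| + 1) / (2 * s * c0))]
    exact Real.log_le_log (Real.exp_pos _) hτ
  rw [div_le_iff₀ (by positivity)] at hlog
  have him : ((τ : ℂ) + v - I * H - 2 * s * LL c0 a1 τ).im = v.im - H - 2 * s * (c0 * Real.log τ + a1.im) := by
    have e2 : (2 * (s : ℂ)) = ((2 * s : ℝ) : ℂ) := by push_cast; ring
    unfold LL
    rw [e2, Complex.sub_im, Complex.sub_im, Complex.add_im, Complex.im_ofReal_mul, Complex.add_im,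
      Complex.ofReal_im, mul_comm I, mul_comm I, Complex.im_ofReal_mul, Complex.im_ofReal_mul, Complex.I_im]
    ring
  have hvR : |v.im| ≤ ‖v0‖ + 1 := by
    have h5 := norm_add_le (v - v0) v0
    rw [sub_add_cancel] at h5
    have h6 := Complex.abs_im_le_norm v
    linarith
  have h7 := le_abs_self v.im
  have h8 := neg_abs_le H
  have h9 := neg_abs_le a1.im
  have h10 := le_abs_self B
  have h12 : -(2 * s * a1.im) ≤ 2 * s * |a1.im| := by nlinarith
  have hneg : ((τ : ℂ) + v - I * H - 2 * s * LL c0 a1 τ).im ≤ -(|B| + 1) := by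
    rw [him]
    nlinarith
  have hB0 := abs_nonneg B
  have h11 := hB' _ (show ((τ : ℂ) + v - I * H - 2 * s * LL c0 a1 τ) ∈ NRZ (Lt (gw k s)) from
    ⟨hz, fun h => by rw [h] at hneg; linarith⟩)
  rw [abs_of_nonpos (by linarith)] at h11
  linarith

end Pool.Agent.H122.PF
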